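import Pool.Agent.H63.WS.Stm

/-! WS-VAAL (for helper63): Vaaler's approximation of the sawtooth function. -/

set_option autoImplicit false

namespace Pool.Agent.H350.WS

open Finset Filter Topology
open Pool.Agent.H63.WS

theorem dir_id (θ : ℝ) (M : ℕ) :
    (1 + 2 * ∑ k ∈ Ico 1 (M + 1), Real.cos (k * θ)) * Real.sin θ =
      Real.sin (((M : ℝ) + 1) * θ) + Real.sin (M * θ) := by
  induction M with
  | zero => simp
  | succ M ih =>
    rw [sum_Ico_succ_top (by omega), mul_add, ← add_assoc, add_mul, ih]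
    have h1 : Real.sin ((((M + 1 : ℕ) : ℝ) + 1) * θ) =
        Real.sin (((M : ℝ) + 1) * θ) * Real.cos θ + Real.cos (((M : ℝ) + 1) * θ) * Real.sin θ := by
      rw [← Real.sin_add]
      congr 1
      push_cast
      ring
    have h2 : Real.sin ((M : ℝ) * θ) =
        Real.sin (((M : ℝ) + 1) * θ) * Real.cos θ - Real.cos (((M : ℝ) + 1) * θ) * Real.sin θ := by
      rw [← Real.sin_sub]
      congr 1
      ring
    rw [h1, h2]
    push_cast
    ring

theorem fej_sin_aux (θ : ℝ) (M : ℕ) (hM : 1 ≤ M) :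
    ((M : ℝ) + 2 * ∑ k ∈ Ico 1 M, ((M : ℝ) - k) * Real.cos (k * θ)) * Real.sin θ =
      Real.sin (M * θ) + 2 * ∑ k ∈ Ico 1 M, Real.sin (k * θ) := by
  induction M, hM using Nat.le_induction with
  | base => simp
  | succ M hM ih =>
    have h1 : ∑ k ∈ Ico 1 (M + 1), (((M + 1 : ℕ) : ℝ) - k) * Real.cos (k * θ) =
        ∑ k ∈ Ico 1 M, ((M : ℝ) - k) * Real.cos (k * θ) +
          ∑ k ∈ Ico 1 (M + 1), Real.cos (k * θ) := by
      have h2 : ∑ k ∈ Ico 1 (M + 1), ((M : ℝ) - k) * Real.cos (k * θ) =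
          ∑ k ∈ Ico 1 M, ((M : ℝ) - k) * Real.cos (k * θ) := by
        rw [sum_Ico_succ_top hM, sub_self, zero_mul, add_zero]
      rw [← h2, ← sum_add_distrib]
      apply sum_congr rfl
      intro k _
      push_cast
      ring
    have h3 := dir_id θ M
    rw [h1, sum_Ico_succ_top hM (fun k => Real.sin ((k : ℝ) * θ))]
    have h4 : (((M + 1 : ℕ) : ℝ) + 2 * (∑ k ∈ Ico 1 M, ((M : ℝ) - k) * Real.cos (k * θ) +
          ∑ k ∈ Ico 1 (M + 1), Real.cos (k * θ))) * Real.sin θ =
        ((M : ℝ) + 2 * ∑ k ∈ Ico 1 M, ((M : ℝ) - k) * Real.cos (k * θ)) * Real.sin θ +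
        (1 + 2 * ∑ k ∈ Ico 1 (M + 1), Real.cos (k * θ)) * Real.sin θ := by
      push_cast
      ring
    rw [h4, ih, h3]
    push_cast
    ring

theorem fej_sin (M : ℕ) (hM : 1 ≤ M) (x : ℝ) :
    fej M x * Real.sin (2 * Real.pi * x) =
      Real.sin (2 * Real.pi * (M * x)) / M +
        2 / M * ∑ k ∈ Ico 1 M, Real.sin (2 * Real.pi * k * x) := by
  have hM0 : (M : ℝ) ≠ 0 := by
    have : M ≠ 0 := by omega
    exact_mod_cast this
  have h := fej_sin_aux (2 * Real.pi * x) M hM
  have e1 : (M : ℝ) * fej M x = (M : ℝ) + 2 * ∑ k ∈ Ico 1 M, ((M : ℝ) - k) *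
      Real.cos (k * (2 * Real.pi * x)) := by
    unfold fej
    rw [mul_add, mul_one, mul_left_comm, mul_sum]
    congr 2
    apply sum_congr rfl
    intro k _
    have e2 : 2 * Real.pi * (k : ℝ) * x = k * (2 * Real.pi * x) := by ring
    rw [e2]
    field_simp
  rw [← e1] at h
  have e3 : ∑ k ∈ Ico 1 M, Real.sin ((k : ℝ) * (2 * Real.pi * x)) =
      ∑ k ∈ Ico 1 M, Real.sin (2 * Real.pi * k * x) := by
    apply sum_congr rfl
    intro k _
    congr 1
    ring
  have e4 : (M : ℝ) * (2 * Real.pi * x) = 2 * Real.pi * (M * x) := by ring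
  rw [e3, e4] at h
  have e5 : Real.sin (2 * Real.pi * (M * x)) / M +
      2 / M * ∑ k ∈ Ico 1 M, Real.sin (2 * Real.pi * k * x) =
      (Real.sin (2 * Real.pi * (M * x)) + 2 * ∑ k ∈ Ico 1 M, Real.sin (2 * Real.pi * k * x)) / M := by
    ring
  rw [e5, ← h, mul_assoc (M : ℝ) (fej M x) _, mul_div_cancel_left₀ _ hM0]

theorem fej_odd (M : ℕ) (x y : ℝ) :
    fej M (x - y) - fej M (-x - y) =
      4 * ∑ k ∈ Ico 1 M, (1 - (k : ℝ) / M) * Real.sin (2 * Real.pi * k * y) *
        Real.sin (2 * Real.pi * k * x) := by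
  unfold fej
  have h1 : ∀ k ∈ Ico 1 M, (1 - (k : ℝ) / M) * Real.cos (2 * Real.pi * k * (x - y)) -
      (1 - (k : ℝ) / M) * Real.cos (2 * Real.pi * k * (-x - y)) =
      2 * ((1 - (k : ℝ) / M) * Real.sin (2 * Real.pi * k * y) *
        Real.sin (2 * Real.pi * k * x)) := by
    intro k _
    have e1 : 2 * Real.pi * (k : ℝ) * (x - y) = 2 * Real.pi * k * x - 2 * Real.pi * k * y := by ring
    have e2 : 2 * Real.pi * (k : ℝ) * (-x - y) = -(2 * Real.pi * k * x + 2 * Real.pi * k * y) := by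
      ring
    rw [e1, e2, Real.cos_neg, Real.cos_sub, Real.cos_add]
    ring
  have h2 := sum_congr rfl h1
  rw [sum_sub_distrib, ← mul_sum] at h2
  linarith

/-- the approximation -/
noncomputable def V (M : ℕ) (x : ℝ) : ℝ :=
  ∑ m ∈ range M, ((m : ℝ) / M - 1 / 2) * (1 / M * fej M (x - (m : ℝ) / M)) +
    1 / (2 * M) * fej M x + Real.sin (2 * Real.pi * (M * x)) / (2 * Real.pi * M) -
    fej M x * Real.sin (2 * Real.pi * x) / (2 * Real.pi)

theorem fej_cont (M : ℕ) : Continuous (fej M) := by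
  unfold fej
  fun_prop

theorem V_cont (M : ℕ) : Continuous (V M) := by
  have h := fej_cont M
  unfold V
  have h1 : ∀ m : ℕ, Continuous (fun x : ℝ => fej M (x - (m : ℝ) / M)) := fun m =>
    h.comp (continuous_id.sub continuous_const)
  refine Continuous.sub (Continuous.add (Continuous.add ?_ ?_) ?_) ?_
  · exact continuous_finsetSum _ fun m _ => continuous_const.mul (continuous_const.mul (h1 m))
  · exact continuous_const.mul h
  · fun_prop
  · exact (h.mul (by fun_prop)).div_const _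

theorem V_period (h3 : S_FEJ) (M : ℕ) (hM : 1 ≤ M) (x : ℝ) : V M (x + 1) = V M x := by
  have hp : ∀ y : ℝ, fej M (y + 1) = fej M y := fun y => (h3 M y hM).2.2.2.1
  unfold V
  have e1 : ∀ m ∈ range M, ((m : ℝ) / M - 1 / 2) * (1 / M * fej M (x + 1 - (m : ℝ) / M)) =
      ((m : ℝ) / M - 1 / 2) * (1 / M * fej M (x - (m : ℝ) / M)) := by
    intro m _
    have : x + 1 - (m : ℝ) / M = (x - (m : ℝ) / M) + 1 := by ring
    rw [this, hp]
  have e2 : Real.sin (2 * Real.pi * (M * (x + 1))) = Real.sin (2 * Real.pi * (M * x)) := by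
    have : 2 * Real.pi * ((M : ℝ) * (x + 1)) = 2 * Real.pi * (M * x) + M * (2 * Real.pi) := by ring
    rw [this, Real.sin_add_nat_mul_two_pi]
  have e3 : Real.sin (2 * Real.pi * (x + 1)) = Real.sin (2 * Real.pi * x) := by
    have : 2 * Real.pi * (x + 1) = 2 * Real.pi * x + 2 * Real.pi := by ring
    rw [this, Real.sin_add_two_pi]
  rw [sum_congr rfl e1, hp, e2, e3]

theorem main_gen (h1 : S_SUMS) (h2 : S_CONV) (h3 : S_FEJ) (M : ℕ) (hM : 1 ≤ M) (x : ℝ)
    (hx0 : 0 < x) (hx1 : x < 1) (hs : Real.sin (Real.pi * (M * x)) ≠ 0) :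
    |x - 1 / 2 - V M x| ≤ 1 / (2 * M) * fej M x := by
  have hM0 : (0 : ℝ) < M := by exact_mod_cast hM
  have hπ := Real.pi_pos
  set s := Real.sin (Real.pi * (M * x)) with hsdef
  have hsx : 0 < Real.sin (Real.pi * x) := by
    apply Real.sin_pos_of_pos_of_lt_pi (by positivity)
    nlinarith
  obtain ⟨a1, a2⟩ := h1 M x hM hs
  rw [← hsdef] at a1 a2
  obtain ⟨b1, b2⟩ := h2 M x hM hx0 hx1
  -- sin π y_m ≠ 0 and the kernel
  have hy : ∀ m : ℕ, M * fej M (x - (m : ℝ) / M) * Real.sin (Real.pi * (x - (m : ℝ) / M)) ^ 2 =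
      s ^ 2 := by
    intro m
    rw [(h3 M (x - (m : ℝ) / M) hM).1]
    have e : Real.pi * ((M : ℝ) * (x - (m : ℝ) / M)) = Real.pi * (M * x) - m * Real.pi := by
      field_simp
    rw [e, Real.sin_sub_nat_mul_pi, ← hsdef, mul_pow, ← pow_mul, mul_comm m 2, pow_mul]
    norm_num
  have hyne : ∀ m : ℕ, Real.sin (Real.pi * (x - (m : ℝ) / M)) ≠ 0 := by
    intro m h0
    have := hy m
    rw [h0] at this
    have h4 : s ^ 2 = 0 := by rw [← this]; ring
    exact hs (pow_eq_zero_iff (by norm_num) |>.mp h4)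
  have hw : ∀ m : ℕ, 1 / M * fej M (x - (m : ℝ) / M) =
      s ^ 2 / M ^ 2 * (1 / Real.sin (Real.pi * (x - (m : ℝ) / M)) ^ 2) := by
    intro m
    have h4 := hyne m
    rw [← hy m]
    generalize fej M (x - (m : ℝ) / M) = f
    generalize Real.sin (Real.pi * (x - (m : ℝ) / M)) = Y at h4 ⊢
    field_simp
  have hfx : fej M x = s ^ 2 / (M * Real.sin (Real.pi * x) ^ 2) := by
    have h4 := (h3 M x hM).1
    rw [← hsdef] at h4
    rw [← h4]
    have h5 := hsx.ne'
    generalize Real.sin (Real.pi * x) = Y at h5 ⊢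
    field_simp
  -- sum of the weights
  have hW : ∑ m ∈ range M, 1 / M * fej M (x - (m : ℝ) / M) = 1 := by
    rw [sum_congr rfl (fun m _ => hw m), ← mul_sum, a1]
    field_simp
  -- the main identity
  have hφ : s ^ 2 / M ^ 2 * ∑ m ∈ range M, phi (x - (m : ℝ) / M) =
      x - ∑ m ∈ range M, ((m : ℝ) / M) * (1 / M * fej M (x - (m : ℝ) / M)) -
        Real.sin (2 * Real.pi * (M * x)) / (2 * Real.pi * M) := by
    have e1 : ∀ m ∈ range M, s ^ 2 / M ^ 2 * phi (x - (m : ℝ) / M) =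
        x * (1 / M * fej M (x - (m : ℝ) / M)) -
        ((m : ℝ) / M) * (1 / M * fej M (x - (m : ℝ) / M)) -
        s ^ 2 / (Real.pi * M ^ 2) * (Real.cos (Real.pi * (x - (m : ℝ) / M)) /
          Real.sin (Real.pi * (x - (m : ℝ) / M))) := by
      intro m _
      rw [hw m]
      unfold phi
      have h4 := hyne m
      generalize Real.sin (Real.pi * (x - (m : ℝ) / M)) = Y at h4 ⊢
      generalize Real.cos (Real.pi * (x - (m : ℝ) / M)) = Z
      field_simp
    have e3 : ∑ m ∈ range M, x * (1 / M * fej M (x - (m : ℝ) / M)) = x := by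
      rw [← mul_sum, hW, mul_one]
    have e4 : ∑ m ∈ range M, s ^ 2 / (Real.pi * M ^ 2) * (Real.cos (Real.pi * (x - (m : ℝ) / M)) /
          Real.sin (Real.pi * (x - (m : ℝ) / M))) =
        s ^ 2 / (Real.pi * M ^ 2) * (M * (Real.cos (Real.pi * (M * x)) / s)) := by
      rw [← mul_sum, a2]
    rw [mul_sum, sum_congr rfl e1, sum_sub_distrib, sum_sub_distrib, e3, e4]
    have e2 : Real.sin (2 * Real.pi * (M * x)) = 2 * s * Real.cos (Real.pi * (M * x)) := by
      rw [hsdef, ← Real.sin_two_mul]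
      congr 1
      ring
    rw [e2]
    generalize Real.cos (Real.pi * (M * x)) = Z
    have e5 : s ^ 2 / (Real.pi * (M : ℝ) ^ 2) * (M * (Z / s)) = 2 * s * Z / (2 * Real.pi * M) := by
      field_simp
    rw [e5]
  have hcot : s ^ 2 / M ^ 2 * (M / Real.pi * (Real.cos (Real.pi * x) / Real.sin (Real.pi * x))) =
      fej M x * Real.sin (2 * Real.pi * x) / (2 * Real.pi) := by
    have e2 : Real.sin (2 * Real.pi * x) = 2 * Real.sin (Real.pi * x) * Real.cos (Real.pi * x) := by
      rw [← Real.sin_two_mul]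
      congr 1
      ring
    rw [e2, hfx]
    have h5 := hsx.ne'
    generalize Real.sin (Real.pi * x) = Y at h5 ⊢
    generalize Real.cos (Real.pi * x) = Z
    field_simp
  set G := ∑ m ∈ range M, phi (x - (m : ℝ) / M) +
    M / Real.pi * (Real.cos (Real.pi * x) / Real.sin (Real.pi * x)) with hG
  have hV : x - 1 / 2 - V M x = s ^ 2 / M ^ 2 * G - 1 / (2 * M) * fej M x := by
    rw [hG, mul_add, hφ, hcot]
    unfold V
    have e1 : ∑ m ∈ range M, ((m : ℝ) / M - 1 / 2) * (1 / M * fej M (x - (m : ℝ) / M)) =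
        ∑ m ∈ range M, ((m : ℝ) / M) * (1 / M * fej M (x - (m : ℝ) / M)) - 1 / 2 := by
      have : ∀ m ∈ range M, ((m : ℝ) / M - 1 / 2) * (1 / M * fej M (x - (m : ℝ) / M)) =
          ((m : ℝ) / M) * (1 / M * fej M (x - (m : ℝ) / M)) -
            1 / 2 * (1 / M * fej M (x - (m : ℝ) / M)) := by
        intro m _
        ring
      rw [sum_congr rfl this, sum_sub_distrib, ← mul_sum, hW]
      ring
    rw [e1]
    ring
  have hpos : 0 ≤ s ^ 2 / (M : ℝ) ^ 2 := by positivity
  have c1 : 0 ≤ s ^ 2 / (M : ℝ) ^ 2 * G := mul_nonneg hpos b1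
  have c2 : s ^ 2 / (M : ℝ) ^ 2 * G ≤ 2 * (1 / (2 * M) * fej M x) := by
    refine (mul_le_mul_of_nonneg_left b2 hpos).trans (le_of_eq ?_)
    rw [hfx]
    have h5 := hsx.ne'
    generalize Real.sin (Real.pi * x) = Y at h5 ⊢
    field_simp
  rw [hV, abs_le]
  constructor <;> linarith

theorem main_all (h1 : S_SUMS) (h2 : S_CONV) (h3 : S_FEJ) (M : ℕ) (hM : 1 ≤ M) (x : ℝ)
    (hx0 : 0 < x) (hx1 : x < 1) : |x - 1 / 2 - V M x| ≤ 1 / (2 * M) * fej M x := by
  by_cases hs : Real.sin (Real.pi * (M * x)) = 0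
  · have hM0 : (0 : ℝ) < M := by exact_mod_cast hM
    have hπ := Real.pi_pos
    have hc : Continuous (fun e : ℝ => 1 / (2 * (M : ℝ)) * fej M (x + e) -
        |x + e - 1 / 2 - V M (x + e)|) := by
      have c1 : Continuous (fun e : ℝ => x + e) := continuous_const.add continuous_id
      have c2 := (fej_cont M).comp c1
      have c3 := (V_cont M).comp c1
      exact (continuous_const.mul c2).sub (((c1.sub continuous_const).sub c3).abs)
    have ht : Tendsto (fun e : ℝ => 1 / (2 * (M : ℝ)) * fej M (x + e) -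
        |x + e - 1 / 2 - V M (x + e)|) (𝓝[>] 0)
        (𝓝 (1 / (2 * (M : ℝ)) * fej M (x + 0) - |x + 0 - 1 / 2 - V M (x + 0)|)) :=
      hc.continuousAt.tendsto.mono_left nhdsWithin_le_nhds
    have hev : ∀ᶠ e : ℝ in 𝓝[>] 0, 0 ≤ 1 / (2 * (M : ℝ)) * fej M (x + e) -
        |x + e - 1 / 2 - V M (x + e)| := by
      have hδ : 0 < min (1 - x) (1 / (M : ℝ)) := lt_min (by linarith) (by positivity)
      filter_upwards [Ioo_mem_nhdsGT hδ] with e he
      have he0 : 0 < e := he.1
      have he1 : e < 1 - x := lt_of_lt_of_le he.2 (min_le_left _ _)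
      have he2 : e < 1 / M := lt_of_lt_of_le he.2 (min_le_right _ _)
      have hne : Real.sin (Real.pi * (M * (x + e))) ≠ 0 := by
        have e1 : Real.pi * ((M : ℝ) * (x + e)) = Real.pi * (M * x) + Real.pi * (M * e) := by ring
        rw [e1, Real.sin_add, hs, zero_mul, zero_add]
        apply mul_ne_zero
        · intro h0
          have := Real.sin_sq_add_cos_sq (Real.pi * (M * x))
          rw [hs, h0] at this
          norm_num at this
        · apply ne_of_gt
          apply Real.sin_pos_of_pos_of_lt_pi (by positivity)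
          have h5 : (M : ℝ) * e < 1 := by
            rw [lt_div_iff₀ hM0] at he2
            linarith
          calc Real.pi * (M * e) < Real.pi * 1 := mul_lt_mul_of_pos_left h5 hπ
            _ = Real.pi := mul_one _
      have := main_gen h1 h2 h3 M hM (x + e) (by linarith) (by linarith) hne
      linarith
    have h4 := ge_of_tendsto ht hev
    rw [add_zero] at h4
    linarith
  · exact main_gen h1 h2 h3 M hM x hx0 hx1 hs

theorem t_vaal (h1 : S_SUMS) (h2 : S_CONV) (h3 : S_FEJ) : S_VAAL := by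
  intro M hM
  have hM0 : (0 : ℝ) < M := by exact_mod_cast hM
  have hπ := Real.pi_pos
  refine ⟨fun k => (∑ m ∈ range M, ((m : ℝ) / M - 1 / 2) * (1 / M * (2 * ((1 - (k : ℝ) / M) *
    Real.sin (2 * Real.pi * k * ((m : ℝ) / M)))))) - 1 / (Real.pi * M), fun x hx0 hx1 => ?_⟩
  have hev : ∀ y : ℝ, fej M (-y) = fej M y := fun y => (h3 M y hM).2.2.2.2
  -- the odd part
  have hodd : ∑ k ∈ Ico 1 M, ((∑ m ∈ range M, ((m : ℝ) / M - 1 / 2) * (1 / M *
      (2 * ((1 - (k : ℝ) / M) * Real.sin (2 * Real.pi * k * ((m : ℝ) / M)))))) -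
        1 / (Real.pi * M)) * Real.sin (2 * Real.pi * k * x) = (V M x - V M (-x)) / 2 := by
    have e1 : (V M x - V M (-x)) / 2 =
        ∑ m ∈ range M, ((m : ℝ) / M - 1 / 2) * (1 / M *
          ((fej M (x - (m : ℝ) / M) - fej M (-x - (m : ℝ) / M)) / 2)) +
        (Real.sin (2 * Real.pi * (M * x)) / (2 * Real.pi * M) -
          fej M x * Real.sin (2 * Real.pi * x) / (2 * Real.pi)) := by
      unfold V
      rw [hev x]
      have e2 : Real.sin (2 * Real.pi * (M * -x)) = -Real.sin (2 * Real.pi * (M * x)) := by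
        rw [← Real.sin_neg]
        congr 1
        ring
      have e3 : Real.sin (2 * Real.pi * -x) = -Real.sin (2 * Real.pi * x) := by
        rw [← Real.sin_neg]
        congr 1
        ring
      have e4 : ∑ m ∈ range M, ((m : ℝ) / M - 1 / 2) * (1 / M *
          ((fej M (x - (m : ℝ) / M) - fej M (-x - (m : ℝ) / M)) / 2)) =
          (∑ m ∈ range M, ((m : ℝ) / M - 1 / 2) * (1 / M * fej M (x - (m : ℝ) / M)) -
          ∑ m ∈ range M, ((m : ℝ) / M - 1 / 2) * (1 / M * fej M (-x - (m : ℝ) / M))) / 2 := by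
        rw [← sum_sub_distrib, sum_div]
        apply sum_congr rfl
        intro m _
        ring
      rw [e2, e3, e4]
      ring
    have e5 : Real.sin (2 * Real.pi * (M * x)) / (2 * Real.pi * M) -
          fej M x * Real.sin (2 * Real.pi * x) / (2 * Real.pi) =
        -(1 / (Real.pi * M)) * ∑ k ∈ Ico 1 M, Real.sin (2 * Real.pi * k * x) := by
      rw [fej_sin M hM x]
      field_simp
      ring
    have e6 : ∑ m ∈ range M, ((m : ℝ) / M - 1 / 2) * (1 / M *
          ((fej M (x - (m : ℝ) / M) - fej M (-x - (m : ℝ) / M)) / 2)) =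
        ∑ k ∈ Ico 1 M, (∑ m ∈ range M, ((m : ℝ) / M - 1 / 2) * (1 / M *
          (2 * ((1 - (k : ℝ) / M) * Real.sin (2 * Real.pi * k * ((m : ℝ) / M)))))) *
            Real.sin (2 * Real.pi * k * x) := by
      have e7 : ∀ m ∈ range M, ((m : ℝ) / M - 1 / 2) * (1 / M *
          ((fej M (x - (m : ℝ) / M) - fej M (-x - (m : ℝ) / M)) / 2)) =
          ∑ k ∈ Ico 1 M, ((m : ℝ) / M - 1 / 2) * (1 / M *
          (2 * ((1 - (k : ℝ) / M) * Real.sin (2 * Real.pi * k * ((m : ℝ) / M))))) *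
            Real.sin (2 * Real.pi * k * x) := by
        intro m _
        rw [fej_odd, mul_div_right_comm, mul_sum, mul_sum, mul_sum]
        apply sum_congr rfl
        intro k _
        ring
      rw [sum_congr rfl e7, sum_comm]
      apply sum_congr rfl
      intro k _
      rw [sum_mul]
    rw [e1, e5, e6, mul_sum, ← sum_add_distrib]
    apply sum_congr rfl
    intro k _
    ring
  rw [hodd]
  have m1 := main_all h1 h2 h3 M hM x hx0 hx1
  have m2 := main_all h1 h2 h3 M hM (1 - x) (by linarith) (by linarith)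
  have e8 : V M (1 - x) = V M (-x) := by
    have := V_period h3 M hM (-x)
    rw [← this]
    congr 1
    ring
  have e9 : fej M (1 - x) = fej M x := by
    have h4 := (h3 M (-x) hM).2.2.2.1
    rw [hev] at h4
    rw [← h4]
    congr 1
    ring
  rw [e8, e9] at m2
  rw [abs_le] at m1 m2 ⊢
  constructor <;> linarith [m1.1, m1.2, m2.1, m2.2]

end Pool.Agent.H350.WS
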